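import Pool.Agent.Helper4.UN.Wa
import Pool.Agent.Helper2.AV.Defs

/-!
Groups acting on `K^m ⊕ K^m` through two irreducible summands.
-/

open Module MTPairs

namespace AV.SHW

open UN.W

section two
variable {K : Type*} [Field K] {m : Type*} [Fintype m] [DecidableEq m]
  {G : Subgroup (Matrix.GeneralLinearGroup (m ⊕ m) K)}

lemma isSub_inf {n : Type*} [Fintype n] [DecidableEq n]
    {G : Subgroup (Matrix.GeneralLinearGroup n K)} {U U' : Submodule K (n → K)}
    (h : IsSub G U) (h' : IsSub G U') : IsSub G (U ⊓ U') :=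
  fun g hg v hv => ⟨h g hg v hv.1, h' g hg v hv.2⟩

lemma isSub_sup {n : Type*} [Fintype n] [DecidableEq n]
    {G : Subgroup (Matrix.GeneralLinearGroup n K)} {U U' : Submodule K (n → K)}
    (h : IsSub G U) (h' : IsSub G U') : IsSub G (U ⊔ U') := by
  intro g hg v hv
  obtain ⟨a, ha, b, hb, rfl⟩ := Submodule.mem_sup.mp hv
  rw [Matrix.mulVec_add]
  exact Submodule.mem_sup.mpr ⟨_, h g hg a ha, _, h' g hg b hb, rfl⟩

lemma sub_W1 (hG : G ≤ Cen (e1 K m)) : IsSub G (W1 K m) := fun _ hg _ hv => cen_W1 (hG hg) hv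

lemma sub_W2 (hG : G ≤ Cen (e1 K m)) : IsSub G (W2 K m) := fun _ hg _ hv => cen_W2 (hG hg) hv

/-- Semisimplicity. -/
theorem reductive (hG : G ≤ Cen (e1 K m))
    (h1 : ∀ U ≤ W1 K m, IsSub G U → U = ⊥ ∨ U = W1 K m)
    (h2 : ∀ U ≤ W2 K m, IsSub G U → U = ⊥ ∨ U = W2 K m) : IsReductiveRep G := by
  intro U hU
  have hc : IsCompl (W1 K m) (W2 K m) := compl_W
  have hs1 := sub_W1 hG
  have hs2 := sub_W2 hG
  rcases h1 (U ⊓ W1 K m) inf_le_right (isSub_inf hU hs1) with h | h
  · rcases h2 ((U ⊔ W1 K m) ⊓ W2 K m) inf_le_right (isSub_inf (isSub_sup hU hs1) hs2) with h' | h'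
    · refine ⟨⊤, fun _ _ _ _ => trivial, ?_⟩
      have e : U ≤ W1 K m := by
        have e1 : U ⊔ W1 K m = W1 K m := by
          calc U ⊔ W1 K m = (U ⊔ W1 K m) ⊓ (W1 K m ⊔ W2 K m) := by rw [hc.sup_eq_top, inf_top_eq]
            _ = W1 K m ⊔ (U ⊔ W1 K m) ⊓ W2 K m := by
              rw [inf_comm, sup_inf_assoc_of_le _ le_sup_right, inf_comm]
            _ = W1 K m := by rw [h', sup_bot_eq]
        exact sup_eq_right.mp e1
      have e2 : U = ⊥ := by rw [← h]; exact (inf_eq_left.mpr e).symm
      rw [e2]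
      exact isCompl_bot_top
    · refine ⟨W1 K m, hs1, disjoint_iff.mpr h, codisjoint_iff.mpr ?_⟩
      rw [eq_top_iff, ← hc.sup_eq_top]
      refine sup_le le_sup_right ?_
      rw [← h']
      exact inf_le_left
  · have hle : W1 K m ≤ U := by rw [← h]; exact inf_le_left
    rcases h2 (U ⊓ W2 K m) inf_le_right (isSub_inf hU hs2) with h' | h'
    · refine ⟨W2 K m, hs2, disjoint_iff.mpr h', codisjoint_iff.mpr ?_⟩
      rw [eq_top_iff, ← hc.sup_eq_top]
      exact sup_le (hle.trans le_sup_left) le_sup_right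
    · refine ⟨⊥, ?_, ?_⟩
      · intro g _ v hv
        rw [Submodule.mem_bot] at hv ⊢
        rw [hv, Matrix.mulVec_zero]
      · have e : U = ⊤ := by
          rw [eq_top_iff, ← hc.sup_eq_top]
          refine sup_le hle ?_
          rw [← h']
          exact inf_le_left
        rw [e]
        exact isCompl_top_bot

lemma fr_map_inj {V V' : Type*} [AddCommGroup V] [Module K V] [AddCommGroup V'] [Module K V']
    [FiniteDimensional K V] (f : V →ₗ[K] V') (U : Submodule K V)
    (h : ∀ u ∈ U, f u = 0 → u = 0) : finrank K (U.map f) = finrank K U := by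
  have h1 : Function.Injective (f.domRestrict U) := by
    rw [injective_iff_map_eq_zero]
    rintro ⟨u, hu⟩ h2
    exact Subtype.ext (h u hu h2)
  have h2 := LinearMap.finrank_range_of_inj h1
  rwa [LinearMap.range_domRestrict] at h2

/-- Projection to the second summand. -/
def p2 (K : Type*) [Field K] (m : Type*) : (m ⊕ m → K) →ₗ[K] (m → K) where
  toFun v i := v (Sum.inr i)
  map_add' a b := rfl
  map_smul' c a := rfl

omit [DecidableEq m] in
lemma p2_blk (A B : Matrix m m K) (v : m ⊕ m → K) :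
    p2 K m ((Matrix.fromBlocks A 0 0 B).mulVec v) = B.mulVec (p2 K m v) := by
  ext i
  change (Matrix.fromBlocks A 0 0 B).mulVec v (Sum.inr i) = _
  simp [Matrix.mulVec, dotProduct, Fintype.sum_sum_type, p2]

omit [DecidableEq m] in
lemma fr_W1' (A B : Matrix m m K) :
    finrank K ((W1 K m).map (Matrix.fromBlocks A 0 0 B).mulVecLin) = A.rank := by
  have h : (W1 K m).map (Matrix.fromBlocks A 0 0 B).mulVecLin =
      (LinearMap.range A.mulVecLin).map (i1 K m) := by
    rw [← range_i1, ← LinearMap.range_comp, ← LinearMap.range_comp]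
    congr 1
    apply LinearMap.ext
    intro v
    exact blk_i1 A B v
  rw [h]
  exact (Submodule.equivMapOfInjective _ i1_inj _).finrank_eq.symm

/-- Ranks of block diagonal matrices on the irreducible subspaces. -/
theorem irr_rank (hG : G ≤ Cen (e1 K m))
    (h1 : ∀ U ≤ W1 K m, IsSub G U → U = ⊥ ∨ U = W1 K m)
    (h2 : ∀ U ≤ W2 K m, IsSub G U → U = ⊥ ∨ U = W2 K m) {W : Submodule K (m ⊕ m → K)}
    (hW : IsIrrSub G W) :
    (∀ A B : Matrix m m K, (∀ v ∈ W, (Matrix.fromBlocks A 0 0 B).mulVec v ∈ W) →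
      rankOn (Matrix.fromBlocks A 0 0 B) W = A.rank) ∨
    (∀ A B : Matrix m m K, (∀ v ∈ W, (Matrix.fromBlocks A 0 0 B).mulVec v ∈ W) →
      rankOn (Matrix.fromBlocks A 0 0 B) W = B.rank) := by
  have hc : IsCompl (W1 K m) (W2 K m) := compl_W
  have hs1 := sub_W1 hG
  have hs2 := sub_W2 hG
  rcases hW.irr (W ⊓ W1 K m) inf_le_left (isSub_inf hW.sub hs1) with h | h
  · right
    have hinj : ∀ u ∈ W, p2 K m u = 0 → u = 0 := by
      intro u hu h0
      have : u ∈ W ⊓ W1 K m := ⟨hu, fun i => congrFun h0 i⟩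
      rw [h] at this
      exact this
    have htop : W.map (p2 K m) = ⊤ := by
      rcases h2 ((W ⊔ W1 K m) ⊓ W2 K m) inf_le_right (isSub_inf (isSub_sup hW.sub hs1) hs2)
        with h' | h'
      · exfalso
        apply hW.ne
        rw [← h]
        apply le_antisymm _ inf_le_left
        refine le_inf le_rfl ?_
        have e1 : W ⊔ W1 K m = W1 K m := by
          calc W ⊔ W1 K m = (W ⊔ W1 K m) ⊓ (W1 K m ⊔ W2 K m) := by rw [hc.sup_eq_top, inf_top_eq]
            _ = W1 K m ⊔ (W ⊔ W1 K m) ⊓ W2 K m := by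
              rw [inf_comm, sup_inf_assoc_of_le _ le_sup_right, inf_comm]
            _ = W1 K m := by rw [h', sup_bot_eq]
        exact sup_eq_right.mp e1
      · rw [eq_top_iff]
        intro w _
        have hw : i2 K m w ∈ (W ⊔ W1 K m) ⊓ W2 K m := by
          rw [h', ← range_i2]
          exact ⟨w, rfl⟩
        obtain ⟨a, ha, b, hb, hab⟩ := Submodule.mem_sup.mp hw.1
        refine ⟨a, ha, ?_⟩
        ext i
        have h3 := congrFun hab (Sum.inr i)
        rw [Pi.add_apply, hb i, add_zero] at h3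
        exact h3
    intro A B hAB
    unfold rankOn
    have e1 : finrank K ((W.map (Matrix.fromBlocks A 0 0 B).mulVecLin).map (p2 K m)) =
        finrank K (W.map (Matrix.fromBlocks A 0 0 B).mulVecLin) := by
      apply fr_map_inj
      rintro _ ⟨u, hu, rfl⟩ h0
      exact hinj _ (hAB u hu) h0
    have e2 : (W.map (Matrix.fromBlocks A 0 0 B).mulVecLin).map (p2 K m) =
        (W.map (p2 K m)).map B.mulVecLin := by
      rw [← Submodule.map_comp, ← Submodule.map_comp]
      congr 1
      apply LinearMap.ext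
      intro v
      exact p2_blk A B v
    rw [← e1, e2, htop, ← LinearMap.range_eq_map]
    rfl
  · left
    have hle : W ≤ W1 K m := by rw [← h]; exact inf_le_right
    have e : W = W1 K m := by
      rcases h1 W hle hW.sub with h' | h'
      · exact absurd h' hW.ne
      · exact h'
    intro A B _
    unfold rankOn
    rw [e]
    exact fr_W1' A B

end two

/-- Unipotent operators have determinant one. -/
lemma det_unip {K : Type*} [Field K] {V : Type*} [AddCommGroup V] [Module K V]
    [FiniteDimensional K V] (f : Module.End K V) (h : (f - 1) * (f - 1) = 0) :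
    LinearMap.det f = 1 := by
  have h1 : IsNilpotent (1 - f) := ⟨2, by
    rw [pow_two]
    calc (1 - f) * (1 - f) = (f - 1) * (f - 1) := by noncomm_ring
      _ = 0 := h⟩
  have h2 := IsNilpotent.charpoly_eq_X_pow_finrank h1
  have h3 := LinearMap.eval_charpoly (1 - f) 1
  rw [h2, map_one, sub_sub_cancel] at h3
  simpa using h3.symm

lemma det_unip_restrict {K : Type*} [Field K] {n : Type*} [Fintype n] [DecidableEq n]
    (g : Matrix n n K) (hg : (g - 1) * (g - 1) = 0) (W : Submodule K (n → K))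
    (h : ∀ v ∈ W, g.mulVecLin v ∈ W) : DetOne (g.mulVecLin.restrict h) := by
  apply det_unip
  apply LinearMap.ext
  intro w
  apply Subtype.ext
  have h1 : ∀ v : n → K, g.mulVec (g.mulVec v - v) - (g.mulVec v - v) = 0 := by
    intro v
    have h2 := congrArg (fun X => X.mulVec v) hg
    simp only [Matrix.zero_mulVec, ← Matrix.mulVec_mulVec, Matrix.sub_mulVec,
      Matrix.one_mulVec] at h2
    exact h2
  exact h1 w

end AV.SHW
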