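import Pool.Agent.Helper4.UN.E1
import Pool.Agent.Helper2.AV.TDefs
import Pool.Agent.Helper90.AV.Two

/-!
Sharpness: exterior powers.
-/

open Module MTPairs

namespace AV.SHW

open UN.W TR TR.W3

variable {K : Type*} [Field K] {ι : Type*} [LinearOrder ι] [Fintype ι] {k : ℕ}

lemma M_transpose (i j : ι) : (M K k i j).transpose = M K k j i := by
  ext S T
  rw [Matrix.transpose_apply, M_apply, M_apply]
  by_cases h : i ∈ T.1 ∧ j ∉ T.1.erase i ∧ S.1 = insert j (T.1.erase i)
  · obtain ⟨h1, h2, h3⟩ := h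
    have e : S.1.erase j = T.1.erase i := by rw [h3, Finset.erase_insert h2]
    have h' : j ∈ S.1 ∧ i ∉ S.1.erase j ∧ T.1 = insert i (S.1.erase j) := by
      refine ⟨by rw [h3]; exact Finset.mem_insert_self _ _, ?_, ?_⟩
      · rw [e]; exact Finset.notMem_erase _ _
      · rw [e, Finset.insert_erase h1]
    have e1 : sg K i (T.1.erase i) = sg K i T.1 := by rw [sg_erase h1, ch_self, one_mul]
    rw [if_pos ⟨h1, h2, h3⟩, if_pos h', e, h3, sg_insert h2, ch_self, one_mul, e1]
    ring
  · have h' : ¬ (j ∈ S.1 ∧ i ∉ S.1.erase j ∧ T.1 = insert i (S.1.erase j)) := by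
      rintro ⟨h1, h2, h3⟩
      apply h
      have e : T.1.erase i = S.1.erase j := by rw [h3, Finset.erase_insert h2]
      refine ⟨by rw [h3]; exact Finset.mem_insert_self _ _, ?_, ?_⟩
      · rw [e]; exact Finset.notMem_erase _ _
      · rw [e, Finset.insert_erase h1]
    rw [if_neg h, if_neg h']

/-- Stable subspaces are preserved by the idempotents. -/
lemma pres_D [CharZero K] {U : Submodule K (Ix ι k ⊕ Ix ι k → K)} (hU : IsSub (GG K ι k) U)
    {P : Matrix (Ix ι k) (Ix ι k) K} (hP : P ∈ Lam K ι k) : ∀ v ∈ U, (D P).mulVec v ∈ U := by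
  intro v hv
  have hmem : D P ∈ Lam2 K ι k := ⟨P, hP, rfl⟩
  obtain ⟨g, hg, hgt⟩ := (GenG_cochar (Lam2_idem _ hmem) hmem).2 2 two_ne_zero
  have h1 := hU g hg v hv
  have h2 : (g : Matrix _ _ K).mulVec v = (D P).mulVec v + v := by
    rw [hgt]
    have : (2 : K) • D P + (1 - D P) = D P + 1 := by rw [two_smul]; abel
    rw [this, Matrix.add_mulVec, Matrix.one_mulVec]
  rw [h2] at h1
  have := U.sub_mem h1 hv
  rwa [add_sub_cancel_right] at this

lemma irr1 [CharZero K] : ∀ U ≤ W1 K (Ix ι k), IsSub (GG K ι k) U →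
    U = ⊥ ∨ U = W1 K (Ix ι k) := fun U hU h => split.irr U hU h

lemma irr2 [CharZero K] : ∀ U ≤ W2 K (Ix ι k), IsSub (GG K ι k) U →
    U = ⊥ ∨ U = W2 K (Ix ι k) := by
  intro U hUW hU
  have key0 : ∀ P ∈ Lam K ι k, Pres (U.comap (i2 K (Ix ι k))) P.transpose := by
    intro P hP v hv
    rw [Submodule.mem_comap] at hv ⊢
    have h1 := pres_D hU hP _ hv
    rw [D, blk_i2, Matrix.sub_mulVec, Matrix.one_mulVec, map_sub] at h1
    have := U.sub_mem hv h1
    rwa [sub_sub_cancel] at this
  have key : ∀ P ∈ Lam K ι k, Pres (U.comap (i2 K (Ix ι k))) P := by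
    have hd : ∀ i, Pres (U.comap (i2 K (Ix ι k))) (M K k i i) := by
      intro i
      have := key0 _ (Or.inl ⟨i, rfl⟩)
      rwa [M_transpose] at this
    rintro P (⟨i, rfl⟩ | ⟨i, j, hij, rfl⟩)
    · exact hd i
    · have h1 := key0 _ (Or.inr ⟨j, i, hij.symm, rfl⟩)
      rw [Matrix.transpose_add, M_transpose, M_transpose] at h1
      have h2 := h1.sub (hd j)
      rw [add_sub_cancel_left] at h2
      intro v hv
      rw [Matrix.add_mulVec]
      exact Submodule.add_mem _ (hd i v hv) (h2 v hv)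
  rcases irr key with h | h
  · left
    rw [eq_bot_iff]
    intro u hu
    have hu1 := hUW hu
    rw [← range_i2] at hu1
    obtain ⟨v, rfl⟩ := hu1
    have : v ∈ U.comap (i2 K (Ix ι k)) := hu
    rw [h, Submodule.mem_bot] at this
    rw [this, map_zero]
    exact Submodule.zero_mem _
  · right
    apply le_antisymm hUW
    intro u hu1
    rw [← range_i2] at hu1
    obtain ⟨v, rfl⟩ := hu1
    have : v ∈ U.comap (i2 K (Ix ι k)) := by rw [h]; trivial
    exact this

/-- The diagonal matrix of the subset `B`. -/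
def Qd (K : Type*) [Field K] {ι : Type*} [LinearOrder ι] (k : ℕ) (B : Finset ι) :
    Matrix (Ix ι k) (Ix ι k) K := Matrix.diagonal fun T => if T.1 = B then 1 else 0

/-- The block diagonal idempotents. -/
def Eb (K : Type*) [Field K] {ι : Type*} [LinearOrder ι] [Fintype ι] (k : ℕ) (B : Finset ι) :
    Matrix (Ix ι k ⊕ Ix ι k) (Ix ι k ⊕ Ix ι k) K :=
  Matrix.fromBlocks (Qd K k B) 0 0 (Qd K k Bᶜ)

/-- The Lie algebra elements. -/
noncomputable def Dm (X : Matrix (Ix ι k) (Ix ι k) K) :
    Matrix (Ix ι k ⊕ Ix ι k) (Ix ι k ⊕ Ix ι k) K :=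
  Matrix.fromBlocks X 0 0 (-X.transpose)

section alg
variable {C : Subalgebra K (Matrix (Ix ι k ⊕ Ix ι k) (Ix ι k ⊕ Ix ι k) K)}

lemma Eb_mem (hC : ∀ P ∈ Lam K ι k, D P ∈ C) (B : Finset ι) : Eb K k B ∈ C := by
  have key : ∀ A : Finset ι, Matrix.fromBlocks (Matrix.diagonal fun T : Ix ι k =>
      if ∀ i ∈ A, (i ∈ T.1 ↔ i ∈ B) then (1 : K) else 0) 0 0 (Matrix.diagonal fun T : Ix ι k =>
      if ∀ i ∈ A, (i ∉ T.1 ↔ i ∈ B) then (1 : K) else 0) ∈ C := by
    intro A
    induction A using Finset.induction_on with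
    | empty =>
      have e : (Matrix.fromBlocks (Matrix.diagonal fun T : Ix ι k =>
          if ∀ i ∈ (∅ : Finset ι), (i ∈ T.1 ↔ i ∈ B) then (1 : K) else 0) 0 0
          (Matrix.diagonal fun T : Ix ι k =>
          if ∀ i ∈ (∅ : Finset ι), (i ∉ T.1 ↔ i ∈ B) then (1 : K) else 0)) = 1 := by
        simp
      rw [e]
      exact C.one_mem
    | insert a A ha ih =>
      have h1 : D (M K k a a) ∈ C := hC _ (Or.inl ⟨a, rfl⟩)
      have h2 : (if a ∈ B then D (M K k a a) else 1 - D (M K k a a)) ∈ C := by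
        split_ifs
        · exact h1
        · exact C.sub_mem C.one_mem h1
      have h3 := C.mul_mem h2 ih
      have eD : D (M K k a a) = Matrix.fromBlocks (Matrix.diagonal fun T : Ix ι k =>
          if a ∈ T.1 then (1 : K) else 0) 0 0 (Matrix.diagonal fun T : Ix ι k =>
          if a ∉ T.1 then (1 : K) else 0) := by
        rw [D, M_same, Matrix.diagonal_transpose, ← Matrix.diagonal_one, Matrix.diagonal_sub]
        congr 2
        funext T
        by_cases h : a ∈ T.1 <;> simp [h]
      have eD' : 1 - D (M K k a a) = Matrix.fromBlocks (Matrix.diagonal fun T : Ix ι k =>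
          if a ∉ T.1 then (1 : K) else 0) 0 0 (Matrix.diagonal fun T : Ix ι k =>
          if a ∈ T.1 then (1 : K) else 0) := by
        rw [eD, ← Matrix.fromBlocks_one, sub_eq_add_neg, Matrix.fromBlocks_neg,
          Matrix.fromBlocks_add]
        congr 1
        · rw [← sub_eq_add_neg, ← Matrix.diagonal_one, Matrix.diagonal_sub]
          congr 1
          funext T
          by_cases h : a ∈ T.1 <;> simp [h]
        · simp
        · simp
        · rw [← sub_eq_add_neg, ← Matrix.diagonal_one, Matrix.diagonal_sub]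
          congr 1
          funext T
          by_cases h : a ∈ T.1 <;> simp [h]
      have e : (if a ∈ B then D (M K k a a) else 1 - D (M K k a a)) *
          Matrix.fromBlocks (Matrix.diagonal fun T : Ix ι k =>
          if ∀ i ∈ A, (i ∈ T.1 ↔ i ∈ B) then (1 : K) else 0) 0 0 (Matrix.diagonal fun T : Ix ι k =>
          if ∀ i ∈ A, (i ∉ T.1 ↔ i ∈ B) then (1 : K) else 0) =
          Matrix.fromBlocks (Matrix.diagonal fun T : Ix ι k =>
          if ∀ i ∈ insert a A, (i ∈ T.1 ↔ i ∈ B) then (1 : K) else 0) 0 0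
          (Matrix.diagonal fun T : Ix ι k =>
          if ∀ i ∈ insert a A, (i ∉ T.1 ↔ i ∈ B) then (1 : K) else 0) := by
        split_ifs with haB
        · rw [eD, Matrix.fromBlocks_multiply]
          simp only [Matrix.diagonal_mul_diagonal, Matrix.mul_zero, Matrix.zero_mul, add_zero,
            zero_add]
          congr 2
          · funext T
            simp only [Finset.forall_mem_insert, haB, iff_true]
            by_cases haT : a ∈ T.1 <;> simp [haT]
          · funext T
            simp only [Finset.forall_mem_insert, haB, iff_true]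
            by_cases haT : a ∈ T.1 <;> simp [haT]
        · rw [eD', Matrix.fromBlocks_multiply]
          simp only [Matrix.diagonal_mul_diagonal, Matrix.mul_zero, Matrix.zero_mul, add_zero,
            zero_add]
          congr 2
          · funext T
            simp only [Finset.forall_mem_insert, haB, iff_false]
            by_cases haT : a ∈ T.1 <;> simp [haT]
          · funext T
            simp only [Finset.forall_mem_insert, haB, iff_false]
            by_cases haT : a ∈ T.1 <;> simp [haT]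
      rw [e] at h3
      exact h3
  have h := key Finset.univ
  have e : ∀ T : Ix ι k, (∀ i ∈ Finset.univ, (i ∈ T.1 ↔ i ∈ B)) ↔ T.1 = B := by
    intro T
    constructor
    · intro h; ext i; exact h i (Finset.mem_univ i)
    · rintro rfl i _; rfl
  have e' : ∀ T : Ix ι k, (∀ i ∈ Finset.univ, (i ∉ T.1 ↔ i ∈ B)) ↔ T.1 = Bᶜ := by
    intro T
    constructor
    · intro h; ext i
      rw [Finset.mem_compl, ← h i (Finset.mem_univ i), not_not]
    · intro hT i _; rw [hT, Finset.mem_compl, not_not]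
  simp only [e, e'] at h
  exact h

lemma Dm_mem (hC : ∀ P ∈ Lam K ι k, D P ∈ C) {i j : ι} (hij : i ≠ j) : Dm (M K k i j) ∈ C := by
  have h := C.sub_mem (hC _ (Or.inr ⟨i, j, hij, rfl⟩)) (hC _ (Or.inl ⟨i, rfl⟩))
  have e : D (M K k i i + M K k i j) - D (M K k i i) = Dm (M K k i j) := by
    rw [D, D, Dm, sub_eq_add_neg, Matrix.fromBlocks_neg, Matrix.fromBlocks_add]
    congr 1
    · abel
    · simp
    · simp
    · rw [Matrix.transpose_add]; abel
  rwa [e] at h

end alg

/-- The nilpotent matrix. -/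
noncomputable def Nm (K : Type*) [Field K] {ι : Type*} [LinearOrder ι] [Fintype ι] (k : ℕ)
    (i j : ι) (S U : Finset ι) : Matrix (Ix ι k) (Ix ι k) K :=
  Qd K k S * M K k i j * Qd K k U + Qd K k Uᶜ * M K k i j * Qd K k Sᶜ

omit [Fintype ι] in
lemma Qd_transpose (B : Finset ι) : (Qd K k B).transpose = Qd K k B :=
  Matrix.diagonal_transpose _

lemma Qd_mul {B B' : Finset ι} (h : B ≠ B') : Qd K k B * Qd K k B' = 0 := by
  rw [Qd, Qd, Matrix.diagonal_mul_diagonal, ← Matrix.diagonal_zero]
  congr 1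
  funext T
  by_cases h1 : T.1 = B
  · rw [if_pos h1, if_neg (fun h2 => h (h1.symm.trans h2)), mul_zero]
  · rw [if_neg h1, zero_mul]

lemma Nm_mem {C : Subalgebra K (Matrix (Ix ι k ⊕ Ix ι k) (Ix ι k ⊕ Ix ι k) K)}
    (hC : ∀ P ∈ Lam K ι k, D P ∈ C) {i j : ι} (hij : i ≠ j) (S U : Finset ι) :
    Dm (Nm K k i j S U) ∈ C := by
  have h := C.add_mem (C.mul_mem (C.mul_mem (Eb_mem hC S) (Dm_mem hC hij)) (Eb_mem hC U))
    (C.mul_mem (C.mul_mem (Eb_mem hC Uᶜ) (Dm_mem hC hij)) (Eb_mem hC Sᶜ))
  have e : Dm (Nm K k i j S U) = Eb K k S * Dm (M K k i j) * Eb K k U +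
      Eb K k Uᶜ * Dm (M K k i j) * Eb K k Sᶜ := by
    unfold Eb Dm Nm
    simp only [Matrix.fromBlocks_multiply, Matrix.fromBlocks_add, Matrix.transpose_add,
      Matrix.transpose_mul, Qd_transpose, compl_compl, Matrix.mul_zero, Matrix.zero_mul, add_zero,
      zero_add, mul_neg, neg_mul, mul_assoc, neg_add]
    congr 1
    all_goals first | rfl | (simp; done) | abel
  rw [e]
  exact h

lemma Nm_sq [Nonempty ι] {i j : ι} {S U : Finset ι} (h : U ≠ S) :
    Nm K k i j S U * Nm K k i j S U = 0 := by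
  have hc : ∀ B : Finset ι, B ≠ Bᶜ := by
    intro B hB
    obtain ⟨x⟩ := ‹Nonempty ι›
    by_cases hx : x ∈ B
    · have := hx; rw [hB, Finset.mem_compl] at this; exact this hx
    · exact hx (by rw [hB, Finset.mem_compl]; exact hx)
  have h1 : Qd K k U * Qd K k S = 0 := Qd_mul h
  have h2 : Qd K k U * Qd K k Uᶜ = 0 := Qd_mul (hc U)
  have h3 : Qd K k Sᶜ * Qd K k S = 0 := Qd_mul (hc S).symm
  have h4 : Qd K k Sᶜ * Qd K k Uᶜ = 0 := Qd_mul (fun h' => h (compl_injective h').symm)
  unfold Nm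
  calc (Qd K k S * M K k i j * Qd K k U + Qd K k Uᶜ * M K k i j * Qd K k Sᶜ) *
      (Qd K k S * M K k i j * Qd K k U + Qd K k Uᶜ * M K k i j * Qd K k Sᶜ) =
      Qd K k S * M K k i j * (Qd K k U * Qd K k S) * M K k i j * Qd K k U +
      Qd K k S * M K k i j * (Qd K k U * Qd K k Uᶜ) * M K k i j * Qd K k Sᶜ +
      Qd K k Uᶜ * M K k i j * (Qd K k Sᶜ * Qd K k S) * M K k i j * Qd K k U +
      Qd K k Uᶜ * M K k i j * (Qd K k Sᶜ * Qd K k Uᶜ) * M K k i j * Qd K k Sᶜ := by noncomm_ring
    _ = 0 := by rw [h1, h2, h3, h4]; simp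

lemma L_iso (g : Matrix.GeneralLinearGroup (Ix ι k) K) :
    (L g).val.transpose * Jd K (Ix ι k) * (L g).val = Jd K (Ix ι k) := by
  have h1 : (g⁻¹).val * g.val = 1 := by rw [← Units.val_mul, inv_mul_cancel, Units.val_one]
  rw [L_val, Jd, Matrix.fromBlocks_transpose, Matrix.fromBlocks_multiply,
    Matrix.fromBlocks_multiply]
  simp only [Matrix.transpose_zero, Matrix.mul_zero, Matrix.mul_one, zero_add, add_zero,
    Matrix.zero_mul, Matrix.transpose_transpose, mul_neg, neg_mul, ← Matrix.transpose_mul, h1,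
    Matrix.transpose_one, neg_zero]

lemma Nm_apply (i j : ι) (S U : Finset ι) (A B : Ix ι k) : Nm K k i j S U A B =
    (if A.1 = S ∧ B.1 = U then M K k i j A B else 0) +
    (if A.1 = Uᶜ ∧ B.1 = Sᶜ then M K k i j A B else 0) := by
  unfold Nm Qd
  rw [Matrix.add_apply, Matrix.mul_diagonal, Matrix.diagonal_mul, Matrix.mul_diagonal,
    Matrix.diagonal_mul]
  congr 1
  · by_cases h1 : A.1 = S <;> by_cases h2 : B.1 = U <;> simp [h1, h2]
  · by_cases h1 : A.1 = Uᶜ <;> by_cases h2 : B.1 = Sᶜ <;> simp [h1, h2]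

theorem not_contains' [CharZero K] (hk : 2 ≤ k) (hkn : 2 * k ≤ Fintype.card ι)
    (hn : 5 ≤ Fintype.card ι) : ¬ ContainsDer (Jd K (Ix ι k)) (GG K ι k) := by
  intro hSU
  have : Nonempty ι := by
    rw [← Fintype.card_pos_iff]; omega
  obtain ⟨S, -, hS⟩ : ∃ S : Finset ι, S ⊆ Finset.univ ∧ S.card = k :=
    Finset.exists_subset_card_eq (by rw [Finset.card_univ]; omega)
  have hSc : 1 < (Sᶜ).card := by rw [Finset.card_compl, hS]; omega
  obtain ⟨i, hi, p, hp, hip⟩ := Finset.one_lt_card.mp (show 1 < S.card by omega)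
  obtain ⟨j, hj, q, hq, hjq⟩ := Finset.one_lt_card.mp hSc
  rw [Finset.mem_compl] at hj hq
  have hij : i ≠ j := fun h => hj (h ▸ hi)
  set S0 : Ix ι k := ⟨S, hS⟩ with hS0
  have hjS : j ∉ S.erase i := fun h => hj (Finset.mem_of_mem_erase h)
  set T0 : Ix ι k := ⟨insert j (S.erase i), by
    rw [Finset.card_insert_of_notMem hjS, Finset.card_erase_add_one hi]; exact hS⟩ with hT0
  have hpT : p ∈ T0.1 := Finset.mem_insert_of_mem (Finset.mem_erase.mpr ⟨hip.symm, hp⟩)
  have hqT : q ∉ T0.1 := by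
    intro h
    rcases Finset.mem_insert.mp h with h | h
    · exact hjq h.symm
    · exact hq (Finset.mem_of_mem_erase h)
  have hqT' : q ∉ T0.1.erase p := fun h => hqT (Finset.mem_of_mem_erase h)
  set B0 : Ix ι k := ⟨insert q (T0.1.erase p), by
    rw [Finset.card_insert_of_notMem hqT', Finset.card_erase_add_one hpT]; exact T0.2⟩ with hB0
  have hjp : j ≠ p := fun h => hj (h ▸ hp)
  have hjB : j ∈ B0.1 := Finset.mem_insert_of_mem
    (Finset.mem_erase.mpr ⟨hjp, Finset.mem_insert_self _ _⟩)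
  have hqB : q ∈ B0.1 := Finset.mem_insert_self _ _
  have hST : S0 ≠ T0 := by
    intro h
    have : j ∈ S0.1 := by rw [h]; exact Finset.mem_insert_self _ _
    exact hj this
  have hBT : B0 ≠ T0 := by
    intro h
    apply hqT
    rw [← h]; exact hqB
  have hBT' : ¬ B0.1 = T0.1 := fun h => hBT (Subtype.ext h)
  have hBS : ¬ B0.1 = (S0.1)ᶜ := by
    intro h
    have h1 := congrArg Finset.card h
    rw [B0.2, Finset.card_compl, S0.2] at h1
    have h2 : 0 < ((S.erase i).erase p).card := by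
      have h3 := Finset.pred_card_le_card_erase (s := S.erase i) (a := p)
      have h4 := Finset.card_erase_of_mem hi
      omega
    obtain ⟨x, hx⟩ := Finset.card_pos.mp h2
    have hx1 := Finset.mem_erase.mp hx
    have hx2 := Finset.mem_erase.mp hx1.2
    have hx3 : x ∈ B0.1 := Finset.mem_insert_of_mem (Finset.mem_erase.mpr
      ⟨hx1.1, Finset.mem_insert_of_mem hx1.2⟩)
    rw [h, Finset.mem_compl] at hx3
    exact hx3 hx2.2
  have hSTc : ¬ S0.1 = (T0.1)ᶜ := by
    intro h
    have h1 : p ∈ S0.1 := hp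
    rw [h, Finset.mem_compl] at h1
    exact h1 hpT
  have hent : ∀ a b, B0.1 ≠ insert b (S0.1.erase a) := by
    intro a b h
    have h1 : j = b := by
      have := hjB
      rw [h] at this
      rcases Finset.mem_insert.mp this with h | h
      · exact h
      · exact absurd (Finset.mem_of_mem_erase h) hj
    have h2 : q = b := by
      have := hqB
      rw [h] at this
      rcases Finset.mem_insert.mp this with h | h
      · exact h
      · exact absurd (Finset.mem_of_mem_erase h) hq
    exact hjq (h1.trans h2.symm)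
  set N : Matrix (Ix ι k) (Ix ι k) K := Nm K k i j S0.1 T0.1 with hN
  have hsq : N * N = 0 := Nm_sq (fun h => hST (Subtype.ext h.symm))
  let g0 : Matrix.GeneralLinearGroup (Ix ι k) K :=
    ⟨1 + N, 1 - N,
      by
        have e : (1 + N) * (1 - N) = 1 - N * N := by noncomm_ring
        rw [e, hsq, sub_zero],
      by
        have e : (1 - N) * (1 + N) = 1 - N * N := by noncomm_ring
        rw [e, hsq, sub_zero]⟩
  have hg1 : g0.val = 1 + N := rfl
  have hg2 : (g0⁻¹).val = 1 - N := rfl
  have hgd : (L g0).val = 1 + Dm N := by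
    rw [L_val, hg1, hg2, Dm, ← Matrix.fromBlocks_one, Matrix.fromBlocks_add]
    congr 1
    · simp
    · simp
    · rw [Matrix.transpose_sub, Matrix.transpose_one, sub_eq_add_neg]
  have hcom : ∀ T : Matrix (Ix ι k ⊕ Ix ι k) (Ix ι k ⊕ Ix ι k) K,
      (∀ h ∈ GG K ι k, T * (h : Matrix _ _ K) = (h : Matrix _ _ K) * T) →
      T * (L g0).val = (L g0).val * T := by
    intro T hT
    have hC : ∀ P ∈ Lam K ι k, D P ∈ Subalgebra.centralizer K
        ({T} : Set (Matrix (Ix ι k ⊕ Ix ι k) (Ix ι k ⊕ Ix ι k) K)) := by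
      intro P hP
      have hmem : D P ∈ Lam2 K ι k := ⟨P, hP, rfl⟩
      obtain ⟨g, hg, hgt⟩ := (GenG_cochar (Lam2_idem _ hmem) hmem).2 2 two_ne_zero
      have h1 := hT g hg
      have h2 : (2 : K) • D P + (1 - D P) = D P + 1 := by rw [two_smul]; abel
      rw [hgt, h2, mul_add, add_mul, mul_one, one_mul] at h1
      rw [Subalgebra.mem_centralizer_iff]
      intro X hX
      rw [Set.mem_singleton_iff] at hX
      subst hX
      exact add_right_cancel h1
    have h1 := Subalgebra.add_mem _ (Subalgebra.one_mem _) (Nm_mem hC hij S0.1 T0.1)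
    rw [hgd]
    exact (Subalgebra.mem_centralizer_iff K).mp h1 T rfl
  have hmem : L g0 ∈ GG K ι k := by
    apply hSU (L g0) (L_iso g0) hcom
    intro W _ h
    apply det_unip_restrict
    have e : (L g0).val - 1 = Dm N := by rw [hgd, add_sub_cancel_left]
    rw [e, Dm, Matrix.fromBlocks_multiply]
    have e2 : N.transpose * N.transpose = 0 := by
      rw [← Matrix.transpose_mul, hsq, Matrix.transpose_zero]
    simp [hsq, e2]
  obtain ⟨X, hX, hXe⟩ := (GG_nor hmem _ ⟨M K k p q, M_mem p q, rfl⟩).1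
  have h2 : (1 + N) * M K k p q * (1 - N) = X := by
    have h3 : ((L g0)⁻¹).val = Matrix.fromBlocks (g0⁻¹).val 0 0 g0.val.transpose := rfl
    rw [L_val, h3, Matrix.fromBlocks_multiply, Matrix.fromBlocks_multiply] at hXe
    have h4 := (Matrix.fromBlocks_inj.mp hXe).1
    simpa [hg1, hg2] using h4
  have h3 : X S0 B0 = 0 := gl_entry hent hX
  have h4 : (M K k p q) S0 B0 = 0 := gl_entry hent (M_mem p q)
  have h5 : (M K k p q) T0 B0 ≠ 0 := by
    rw [M_apply, if_pos]
    · exact mul_ne_zero (sg_ne _ _) (sg_ne _ _)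
    · exact ⟨hpT, hqT', rfl⟩
  have h6 : (M K k i j) S0 T0 ≠ 0 := by
    rw [M_apply, if_pos]
    · exact mul_ne_zero (sg_ne _ _) (sg_ne _ _)
    · exact ⟨hi, hjS, rfl⟩
  have hcol : ∀ A, N A B0 = 0 := by
    intro A
    rw [hN, Nm_apply, if_neg (fun h => hBT' h.2), if_neg (fun h => hBS h.2), add_zero]
  have hrow : ∀ R, N S0 R = if R = T0 then (M K k i j) S0 T0 else 0 := by
    intro R
    rw [hN, Nm_apply, if_neg (c := S0.1 = (T0.1)ᶜ ∧ R.1 = (S0.1)ᶜ) (fun h => hSTc h.1), add_zero]
    by_cases hR : R = T0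
    · subst hR
      rw [if_pos ⟨rfl, rfl⟩, if_pos rfl]
    · rw [if_neg (fun h => hR (Subtype.ext h.2)), if_neg hR]
  rw [← h2] at h3
  have e : (1 + N) * M K k p q * (1 - N) = M K k p q + N * M K k p q -
      (M K k p q + N * M K k p q) * N := by noncomm_ring
  have e1 : ((M K k p q + N * M K k p q) * N) S0 B0 = 0 := by
    rw [Matrix.mul_apply]
    apply Finset.sum_eq_zero
    intro R _
    rw [hcol, mul_zero]
  have e2 : (N * M K k p q) S0 B0 = (M K k i j) S0 T0 * (M K k p q) T0 B0 := by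
    rw [Matrix.mul_apply]
    simp only [hrow, ite_mul, zero_mul, Finset.sum_ite_eq', Finset.mem_univ, if_true]
  rw [e, Matrix.sub_apply, Matrix.add_apply, h4, e1, e2, sub_zero, zero_add] at h3
  exact mul_ne_zero h6 h5 h3

lemma choose_facts {n k : ℕ} (hk : 2 ≤ k) (hkn : 2 * k ≤ n) :
    n.choose k = (n - 1).choose (k - 1) + (n - 1).choose k ∧
      (n - 1).choose (k - 1) ≤ (n - 1).choose k := by
  obtain ⟨n, rfl⟩ : ∃ n', n = n' + 1 := ⟨n - 1, by omega⟩
  obtain ⟨k, rfl⟩ : ∃ k', k = k' + 1 := ⟨k - 1, by omega⟩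
  simp only [Nat.add_sub_cancel]
  refine ⟨Nat.choose_succ_succ n k, ?_⟩
  have h := Nat.choose_succ_right_eq n k
  have h1 : k + 1 ≤ n - k := by omega
  have h2 : n.choose k * (k + 1) ≤ n.choose (k + 1) * (k + 1) := by
    rw [h]; exact Nat.mul_le_mul_left _ h1
  exact Nat.le_of_mul_le_mul_right h2 (by omega)

end AV.SHW

namespace AV

open AV.SHW UN.W TR TR.W3

/-- SHW: exterior powers. -/
theorem ex_wedge (K : Type*) [Field K] [IsAlgClosed K] [CharZero K] {n k : ℕ} (hn : 5 ≤ n)
    (hk : 2 ≤ k) (hkn : 2 * k ≤ n) :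
    HasEx1 K (n.choose k) ((n - 1).choose (k - 1)) ((n - 2).choose (k - 1)) := by
  obtain ⟨hc1, hc2⟩ := choose_facts hk hkn
  set i0 : Fin n := ⟨0, by omega⟩
  set j0 : Fin n := ⟨1, by omega⟩
  have h01 : i0 ≠ j0 := by
    intro h; exact absurd (congrArg Fin.val h) (by simp [i0, j0])
  have hP : M K k i0 i0 ∈ Lam K (Fin n) k := Or.inl ⟨i0, rfl⟩
  have hconj : IsConj ⊥ (GG K (Fin n) k) (D (M K k i0 i0)) (D (M K k i0 i0)) :=
    ⟨1, Subgroup.one_mem _, 1, Subgroup.one_mem _, fun v => by simp⟩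
  refine ⟨Ix (Fin n) k ⊕ Ix (Fin n) k, inferInstance, inferInstance, Jd K _, GG K (Fin n) k,
    D (M K k i0 i0), strong i0, reductive GG_cen irr1 irr2, ?_,
    not_contains' hk (by rwa [Fintype.card_fin]) (by rwa [Fintype.card_fin])⟩
  intro W hW
  have hr := irr_rank GG_cen irr1 irr2 hW
  have hone : (1 : Matrix (Ix (Fin n) k ⊕ Ix (Fin n) k) (Ix (Fin n) k ⊕ Ix (Fin n) k) K) =
      Matrix.fromBlocks 1 0 0 1 := Matrix.fromBlocks_one.symm
  have hcard : Fintype.card (Ix (Fin n) k) = n.choose k := by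
    rw [Fintype.card_finset_len, Fintype.card_fin]
  have hdim : finrank K W = n.choose k := by
    have e : rankOn (Matrix.fromBlocks (1 : Matrix (Ix (Fin n) k) (Ix (Fin n) k) K) 0 0 1) W =
        finrank K W := by
      unfold rankOn
      rw [← hone, Matrix.mulVecLin_one, Submodule.map_id]
    have hp : ∀ v ∈ W, (Matrix.fromBlocks (1 : Matrix (Ix (Fin n) k) (Ix (Fin n) k) K)
        0 0 1).mulVec v ∈ W := by
      intro v hv
      rw [← hone, Matrix.one_mulVec]
      exact hv
    rcases hr with h | h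
    · have := h 1 1 hp
      rw [e, Matrix.rank_one, hcard] at this
      exact this
    · have := h 1 1 hp
      rw [e, Matrix.rank_one, hcard] at this
      exact this
  have hDW : ∀ v ∈ W, (D (M K k i0 i0)).mulVec v ∈ W := pres_D hW.sub hP
  have hrk1 : (M K k i0 i0).rank = (n - 1).choose (k - 1) := by
    rw [rank_in i0 (by omega), Fintype.card_fin]
  have hrk2 : (1 - (M K k i0 i0).transpose).rank = (n - 1).choose k := by
    rw [rank_notin i0, Fintype.card_fin]
  refine ⟨hdim, ⟨D (M K k i0 i0), hconj, ?_⟩, ?_⟩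
  · rw [hdim, hc1]
    rcases hr with h | h
    · have := h _ _ hDW
      change rankOn (D (M K k i0 i0)) W = _ at this
      rw [this, hrk1]
      omega
    · have := h _ _ hDW
      change rankOn (D (M K k i0 i0)) W = _ at this
      rw [this, hrk2]
      omega
  · intro γ hγ E
    rw [Subgroup.mem_bot] at hγ
    subst hγ
    have eu : (L (un K k h01) : Matrix _ _ K) - 1 =
        Matrix.fromBlocks (M K k i0 j0) 0 0 (-(M K k i0 j0).transpose) := by
      have e1 : (un K k h01).val = 1 + M K k i0 j0 := rfl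
      have e2 : ((un K k h01)⁻¹).val = 1 - M K k i0 j0 := rfl
      rw [L_val, e1, e2, ← Matrix.fromBlocks_one, sub_eq_add_neg, Matrix.fromBlocks_neg,
        Matrix.fromBlocks_add]
      congr 1
      · abel
      · simp
      · simp
      · rw [Matrix.transpose_sub, Matrix.transpose_one]
        abel
    have hm1 : M K k i0 i0 * M K k i0 j0 = M K k i0 j0 := M_diag_mul _ _
    have hm2 : M K k i0 j0 * M K k i0 i0 = 0 := M_mul_diag h01
    have ht1 : (M K k i0 j0).transpose * (M K k i0 i0).transpose = (M K k i0 j0).transpose := by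
      rw [← Matrix.transpose_mul, hm1]
    have ht2 : (M K k i0 i0).transpose * (M K k i0 j0).transpose = 0 := by
      rw [← Matrix.transpose_mul, hm2, Matrix.transpose_zero]
    refine ⟨1, Subgroup.one_mem _, fun _ _ => rfl, L (un K k h01), Lun_mem h01,
      D (M K k i0 i0), hconj, ?_, ?_, fun _ => rfl, ?_⟩
    · rw [eu, D, Matrix.fromBlocks_multiply]
      congr 1
      · rw [hm1]; simp
      · simp
      · simp
      · rw [sub_mul, one_mul, mul_neg, ht2]; simp
    · rw [eu, D, Matrix.fromBlocks_multiply, ← Matrix.fromBlocks_zero]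
      congr 1
      · rw [hm2]; simp
      · simp
      · simp
      · rw [mul_sub, mul_one, neg_mul, ht1]; simp
    · intro θ hθ U hU
      rw [Subgroup.mem_bot] at hθ
      subst hθ
      have hUW : U = W := by
        ext v
        exact (hU v).symm
      subst hUW
      have hp : ∀ v ∈ U, (Matrix.fromBlocks (M K k i0 j0) 0 0
          (-(M K k i0 j0).transpose)).mulVec v ∈ U := by
        intro v hv
        rw [← eu, Matrix.sub_mulVec, Matrix.one_mulVec]
        exact U.sub_mem (hW.sub _ (Lun_mem h01) v hv) hv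
      have hrk : (M K k i0 j0).rank = (n - 2).choose (k - 1) := by
        have := rank_M (K := K) (k := k) h01 (by omega)
        rw [← LinearMap.range_eq_map, Fintype.card_fin] at this
        exact this
      have hrk' : (-(M K k i0 j0).transpose).rank = (n - 2).choose (k - 1) := by
        rw [← neg_one_smul K, Matrix.rank_smul_of_mem_nonZeroDivisors, Matrix.rank_transpose, hrk]
        exact mem_nonZeroDivisors_of_ne_zero (by norm_num)
      rw [eu]
      rcases hr with h | h
      · exact (h _ _ hp).trans hrk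
      · exact (h _ _ hp).trans hrk'

end AV
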